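import Pool.Agent.R910.Pow.Hull

/-!
# MP_bf8edd_ag: Voevodsky's conjecture for powers of divisor classes on rational varieties

All varieties are smooth and projective over an algebraically closed field of characteristic zero, such as `ℂ`, and
the Chow groups have rational coefficients. The homologically trivial classes are the kernel of the cycle class map
to a Weil cohomology `H`, such as singular cohomology.

**Theorem.** (a) For every class `w` in `CH ^ p (X)` there are a smooth projective rational variety `Y`, a divisor
class `D` on `Y` and a number `r` such that `w` and `D ^ r` are images of each other under correspondences. In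
particular, `w` is homologically trivial if and only if `cl(D) ^ r = 0`, and `w` is smash-nilpotent if and only if
`D ^ r` is smash-nilpotent.

(b) These are equivalent.

1. Every homologically trivial class on every `X` is smash-nilpotent (Voevodsky's conjecture).
2. If `Y` is a rational variety, `D` a divisor class on `Y` and `cl(D) ^ r = 0` in `H ^ (2 r) (Y)`, then `D ^ r` in
   `CH ^ r (Y)` is smash-nilpotent.

So the conjecture for all cycles on all varieties is a statement on powers of one divisor class on rational
varieties `Y`, where `CH ^ 1 (Y) = H ^ 2 (Y)` (for singular cohomology): if `h` in `H ^ 2 (Y, ℚ)` satisfies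
`h ^ r = 0` in cohomology, then `h ^ r` should be smash-nilpotent in `CH ^ r (Y)`.

In the Lean statement `𝒮` is the set of all varieties and `ℛ` the set of all rational varieties (or `ℛ = 𝒮`), and
`HasHulls` and `HasProjectiveBundles` collect the known theorems on them which are used.

* `HasHulls`: the variety `X` is birational to a hypersurface in `ℙ ^ (n + 1)`; by Hironaka there is a smooth divisor
  `X'` on a rational variety `B'` of dimension `n + 1` with a birational morphism `X' → X`. Let `B` be the blow-up of
  `B' × ℙ ^ 1` in `X' × 0` and `E` its exceptional divisor. Then `p_* i^* i_* p^* w = - w` for `p : E → X' → X` and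
  `i : E → B`.
* `HasProjectiveBundles`: vector bundles, their Chern classes and Chern characters (with the identities of Newton),
  sums, tensor products, Serre's theorem (for `V` there is a line bundle `L` such that `V ⊗ L` is a sub-bundle of a
  trivial bundle), the isomorphism `ch : K_0(X) → CH(X)` (rationally), and projective bundles: they are rational for
  rational `X`, `q_* ξ ^ (r - 1) = 1`, `q_* ξ ^ i = 0` for `i < r - 1`, `∑ c_i ξ ^ (r - i) = 0`.

Proof of (a). By `HasHulls` we may assume that `X` is rational and `p ≥ 1`. Choose bundles `V`, `V'` with
`ch V - ch V' = N w`, `N ≠ 0`, and `L`, `Q` with `ch(V' ⊗ L) + ch(Q) = m`. Then `U = (V ⊗ L) ⊕ Q` has the Chern character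
`m + N w ch(L)`, so that the Chern classes of `U` of positive degree are multiples of `w`, and `w` is in the ideal
which they generate, by Newton's identities. Let `q : Y → X` be the projective bundle of `U`, of rank `r`, and
`D = ξ`. Since `D ^ r = - ∑ c_i(U) D ^ (r - i)`, `D ^ r` is a multiple of `q^* w`; and since
`q_*(D ^ (r - 1 + i)) = - c_i(U) - ⋯`, the `c_i(U)`, and so `w`, are in the ideal `q_*(D ^ r · CH(Y))` of `CH(X)`.
-/

open CategoryTheory AlgebraicGeometry
open Pool.Agent.H914 Pool.Agent.H914.VarClass Pool.Agent.H914.VarClass.Obj

universe u v w w'

namespace Pool.Agent.Results.MP_bf8edd_ag.DivisorPowers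

open Pool.Agent.R903 Pool.Agent.R910.Nil Pool.Agent.R910.Pow

/-- **Voevodsky's conjecture for all cycles is equivalent to the conjecture for powers of divisor classes on
rational varieties.** -/
theorem result {k : Type u} [Field k] {𝒱 : VarClass k} {C : ChowTheory.{u, v} 𝒱}
    (W : WeilTheory.{u, v, w} C) (B : BundleData.{u, v, w'} C) (𝒮 ℛ : Set 𝒱.Obj)
    (hH : HasHulls C 𝒮 ℛ) (hR : HasProjectiveBundles B ℛ) :
    (∀ X ∈ 𝒮, ∀ (p : ℕ) (w : C.CH X), IsCodim C p w → IsHomPowerOn W ℛ w) ∧
    (HomVoevodskyFor W 𝒮 ↔ HomVoevodskyForPowers W ℛ) :=
  ⟨fun _ hX _ _ hw => isHomPowerOn W hH hR hX hw, homVoevodskyFor_iff_powers W hH hR⟩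

end Pool.Agent.Results.MP_bf8edd_ag.DivisorPowers
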