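import Pool.Agent.R910.Nil.Hom

/-!
# MP_bf8edd_ag: Voevodsky's conjecture for sums of powers of divisors in the middle dimension

All varieties are smooth and projective over an algebraically closed field of characteristic zero, such as `ℂ`; the
Chow groups have rational coefficients, and a class is homologically trivial if its cycle class in a Weil cohomology
with the weak Lefschetz theorem is zero. Let `ℛ` be the set of the varieties which are obtained from projective
spaces by successive blow-ups in smooth centres.

**Theorem.** For each natural number `j` these are equivalent.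

1. The homologically trivial `j`-cycles on all `X` of dimension `2 j + 1` are smash-nilpotent.
2. The homologically trivial cycles of dimension at most `j` on all `X` of any dimension are smash-nilpotent.
3. For one `n ≥ 2 j + 1` the homologically trivial `j`-cycles on all `X` of dimension `n` are smash-nilpotent.
4. For all `B` in `ℛ` of dimension `2 j + 3`, the homologically trivial classes of the form `∑ a_s D_s ^ (j + 2)`, where
   the `D_s` are divisor classes and the `a_s` are rational numbers, are smash-nilpotent.
5. The homologically trivial cycles of dimension at most `j + 1` on all `B` in `ℛ` of any dimension are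
   smash-nilpotent.

**Corollary.** Voevodsky's conjecture holds for all varieties and all cycles if and only if, for infinitely many `j`,
every homologically trivial class `∑ a_s D_s ^ (j + 1)` on every `B` in `ℛ` of dimension `2 j + 1` is smash-nilpotent.

For example, the conjecture for curves on varieties of all dimensions is equivalent to the conjecture for curves on
threefolds, and to the conjecture for linear combinations of cubes of divisor classes on rational fivefolds. On `B`
in `ℛ` the group `CH ^ 1 (B) = H ^ 2 (B)` has finite dimension, so that for each `B` in `ℛ` only finitely many relations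
have to be considered.

In the Lean statement, `𝒮` is the set of all varieties, and three structures collect the known theorems.

* `HasHomSections`: if `dim X > 2 j + 1`, every `w` in `CH_j(X)` is the push-forward of a class on a smooth hyperplane
  section `Z` of large degree, by Kleiman (smoothing of cycles) and Altman and Kleiman (sections through a smooth
  subscheme of dimension `j`), and `H ^ (2 (dim Z - j)) (Z) → H ^ (2 (dim X - j)) (X)` is injective, by the weak Lefschetz
  theorem.
* `IsBlowUpFamily`: `X` is birational to a smooth divisor `X'` on some `B'` in `ℛ` of dimension `dim X + 1` (Hironaka);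
  let `B` be the blow-up of `B' × ℙ ^ 1` in `X' × 0`. The motive of a blow-up of `Y` in `Z` is the sum of the motive
  of `Y` and of positive Tate twists of the motive of `Z`.
* `SplitsByBlowUps`: for `w` in `CH ^ p (X)` there is a composition `π : X' → X` of blow-ups in smooth centres such that
  `π^* w` is a linear combination of powers `D ^ p` of divisor classes. Indeed `w = ∑ q_i ch_p(V_i)` for vector bundles
  `V_i`, and by Hironaka there is an `X'` with a morphism to the product of the bundles of complete flags of the
  `V_i`, over which the `V_i` are extensions of line bundles.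

Proof. 1 ⇒ 2: for `dim X > 2 j + 1` write `w = f_* w'` with a section `f : Z → X`; then `w'` is homologically trivial.
For `dim X ≤ 2 j` take products with projective lines. The same products reduce `i`-cycles in dimension `2 i + 1` to
`j`-cycles in dimension `n` whenever `i ≤ j` and `n ≥ 2 j + 1`. 4 ⇒ 1: `w` is smash-nilpotent if the `(j + 1)`-cycle
`i_* p^* w` on `B` is, where `dim B = 2 (j + 1) + 1`, or its pull-back to a suitable `B'` in `ℛ`. 2 ⇒ 5: the components
of a `(j + 1)`-cycle on `B` in the motives of the centres have dimension at most `j`.
-/

open CategoryTheory AlgebraicGeometry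
open Pool.Agent.H914 Pool.Agent.H914.VarClass Pool.Agent.H914.VarClass.Obj

universe u v w

namespace Pool.Agent.Results.MP_bf8edd_ag.MiddleDimension

open Pool.Agent.R903 Pool.Agent.R910.Nil

/-- **Voevodsky's conjecture for all varieties follows from the conjecture for sums of powers of divisor classes
in the middle dimension on rational varieties.** -/
theorem result {k : Type u} [Field k] {𝒱 : VarClass k} {C : ChowTheory.{u, v} 𝒱}
    (W : WeilTheory.{u, v, w} C) (𝒮 ℛ : Set 𝒱.Obj) (hS : HasHomSections W 𝒮)
    (hR : IsBlowUpFamily C 𝒮 ℛ) (hs : SplitsByBlowUps C ℛ) :
    (∀ j, List.TFAE [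
      ∀ X ∈ 𝒮, X.dim = 2 * j + 1 → HomNilpotentIn W X j,
      ∀ X ∈ 𝒮, ∀ i ≤ j, HomNilpotentIn W X i,
      ∃ n, 2 * j + 1 ≤ n ∧ ∀ X ∈ 𝒮, X.dim = n → HomNilpotentIn W X j,
      ∀ B ∈ ℛ, B.dim = 2 * j + 3 → HomNilpotentPowers W B (j + 2),
      ∀ B ∈ ℛ, ∀ i ≤ j + 1, HomNilpotentIn W B i]) ∧
    List.TFAE [
      HomVoevodskyFor W 𝒮,
      HomVoevodskyFor W ℛ,
      ∀ m, ∃ j, m ≤ j ∧ ∀ X ∈ 𝒮, X.dim = 2 * j + 1 → HomNilpotentIn W X j,
      ∀ m, ∃ j, m ≤ j ∧ ∀ B ∈ ℛ, B.dim = 2 * j + 1 → HomNilpotentPowers W B (j + 1)] :=
  ⟨homNilpotentIn_tfae hS hR hs, homVoevodskyFor_tfae hS hR hs⟩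

end Pool.Agent.Results.MP_bf8edd_ag.MiddleDimension
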