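import Pool.Agent.R593.Nc.Sum

/-!
# Smash-nilpotence at the kernel of the realisation

For motives which are finite-dimensional in the sense of Kimura, the homologically trivial classes
are the classes which are smash-nilpotent at the point of the spectrum of the category of geometric
motives given by the kernel of the realisation, that is, which become smash-nilpotent after taking
the tensor product with some geometric motive which has cohomology.
-/

set_option autoImplicit false
set_option backward.isDefEq.respectTransparency false
set_option backward.defeqAttrib.useBackward true

open CategoryTheory Limits MonoidalCategory Pretriangulated Triangulated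
open Pool.Agent.Y116.MT (TensorTriangulated)
open Pool.Agent.R920 (GReal)
open Pool.Agent.R905 (IsKimuraFinite)
open Pool.Agent.Y112.KD (asym)
open Pool.Agent.R593.Cv (IsConeOf)
open Pool.Agent.R593.Nc

namespace Pool.Agent.Results.MP_bf8edd_ag.NilpotentAtKernel

universe v u w

/-- Let `R` be a realisation of the category `C` of geometric motives.
(i) The motives without cohomology form a prime thick tensor ideal.
(ii) The motives on which a class `s : 𝟙 ⟶ X` is smash-nilpotent form a thick tensor ideal.
(iii) If `X` is finite-dimensional in the sense of Kimura, then `s` is homologically trivial if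
and only if it is smash-nilpotent on some motive with cohomology.
(iv) If the `n`-th exterior power of `X` is zero, and `L` is the `n`-th exterior power of the cone
`Z` of `s`, then `s ⊗ ⋯ ⊗ s ⊗ id_L = 0` (`n` factors `s`), and `L` has cohomology if and only if `s`
is homologically trivial; if `L` generates everything as a thick tensor ideal then `s` is
smash-nilpotent, and if `s` is smash-nilpotent then `Z` generates everything.
(v) If homologically trivial classes of all geometric motives are smash-nilpotent, then each motive
with cohomology generates everything as a thick tensor ideal; and the latter implies that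
homologically trivial classes of Kimura finite motives are smash-nilpotent. -/
theorem result {C : Type u} [Category.{v} C] [Preadditive C] [HasZeroObject C] [HasShift C ℤ]
    [∀ n : ℤ, (shiftFunctor C n).Additive] [Pretriangulated C] [IsTriangulated C]
    [MonoidalCategory C] [SymmetricCategory C] [TensorTriangulated C] [MonoidalPreadditive C]
    [RightRigidCategory C] [Linear ℚ C] [MonoidalLinear ℚ C] [IsIdempotentComplete C]
    {E : Type w} [Field E] [CharZero E] (R : GReal C E) :
    IsPrimeIdeal (kernel R) ∧
    (∀ (X : C) (s : 𝟙_ C ⟶ X), IsThickIdeal (NilOn s)) ∧
    (∀ X : C, IsKimuraFinite X → ∀ s : 𝟙_ C ⟶ X,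
      HomTrivial R s ↔ ∃ A : C, ¬ kernel R A ∧ NilOn s A) ∧
    (∀ (X Z L : C) (s : 𝟙_ C ⟶ X) (n : ℕ), asym (-1) X n = 0 → IsConeOf s Z →
      IsExtPower Z n L → act s n L = 0 ∧ (HomTrivial R s ↔ ¬ kernel R L) ∧
        (Generates L → SmashNilpotent s) ∧ (SmashNilpotent s → Generates Z)) ∧
    (AllNilpotent R → AllGenerate R) ∧ (AllGenerate R → KimuraNilpotent R) := by
  refine ⟨ker_prime R, fun X s => nilOn_ideal s, fun X hX s => hom_iff hX s,
    fun X Z L s n hX hZ hL => explicit hX hZ hL, fun h A hA => generates_of_nil h hA, ?_⟩
  intro h X hX s hs
  obtain ⟨A, hA, hn⟩ := (hom_iff hX s).1 hs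
  exact h A hA _ (nilOn_ideal s) hn

end Pool.Agent.Results.MP_bf8edd_ag.NilpotentAtKernel
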